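import Pool.Agent.Lib.MP_6bc78b_nt.SW.UBN

/-! CNT: Lipschitz continuity of `L(s,χ)` to the right of 1, up to the line. -/

set_option autoImplicit false

open Complex Finset DirichletCharacter

namespace Pool.Agent.Lib.MP_6bc78b_nt.SW.H76

theorem LL_mono {q : ℕ} (hq : 1 ≤ q) {t t' : ℝ} (h : |t| ≤ |t'|) : LL q t ≤ LL q t' := by
  have hq' : (1 : ℝ) ≤ q := by exact_mod_cast hq
  unfold LL
  apply Real.log_le_log
  · have := abs_nonneg t
    positivity
  · have := abs_nonneg t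
    nlinarith

theorem LL_two {q : ℕ} (hq : 1 ≤ q) (t : ℝ) : LL q (2 * t) ≤ 2 * LL q t := by
  have hq' : (1 : ℝ) ≤ q := by exact_mod_cast hq
  have h1 := one_le_LL hq t
  have h2 : LL q (2 * t) ≤ Real.log 2 + LL q t := by
    unfold LL
    rw [← Real.log_mul (by norm_num) (by have := abs_nonneg t; positivity)]
    apply Real.log_le_log
    · have := abs_nonneg (2 * t)
      positivity
    · rw [abs_mul, abs_two]
      nlinarith [abs_nonneg t]
  have h3 : Real.log 2 ≤ 1 := by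
    have := Real.log_two_lt_d9
    linarith
  linarith

theorem LL_one_le {q : ℕ} (hq : 1 ≤ q) : LL q 1 ≤ 2 * LL q 0 := by
  have hq' : (1 : ℝ) ≤ q := by exact_mod_cast hq
  have e : 2 * LL q 0 = Real.log ((q * (|(0 : ℝ)| + 3)) ^ 2) := by
    rw [Real.log_pow, LL]; norm_num
  rw [e, LL]
  refine Real.log_le_log (by positivity) ?_
  rw [abs_one, abs_zero]
  nlinarith

theorem norm_deriv_le {q : ℕ} [NeZero q] {χ : DirichletCharacter ℂ q} (hχ : χ ≠ 1) {s : ℂ}
    (hs : 1 ≤ s.re) : ‖deriv χ.LFunction s‖ ≤ 36 * LL q s.im ^ 2 := by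
  have hq : 1 ≤ q := Nat.one_le_iff_ne_zero.2 (NeZero.ne q)
  have h1 := H6.norm_iteratedDeriv_LFunction_le hχ hs 1
  rw [iteratedDeriv_one] at h1
  refine h1.trans ?_
  have h2 := H6LL_le hq s.im
  have h3 : 0 ≤ H6.LL q (|s.im| + 1) := by
    have := H6.two_lt_LL (H6.one_lt_of_ne_one hχ) (|s.im| + 1)
    linarith
  have h4 : H6.LL q (|s.im| + 1) ^ 2 ≤ (2 * LL q s.im) ^ 2 := pow_le_pow_left₀ h3 h2 2
  have h5 : (36 : ℝ) * LL q s.im ^ 2 = 9 * (2 * LL q s.im) ^ 2 := by ring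
  rw [h5]
  norm_num
  linarith

/-- The mean value inequality in the closed half strip. -/
theorem norm_sub_le {q : ℕ} [NeZero q] {χ : DirichletCharacter ℂ q} (hχ : χ ≠ 1) {z w : ℂ}
    {T : ℝ} (hz : 1 ≤ z.re) (hw : 1 ≤ w.re) (hzT : |z.im| ≤ |T|) (hwT : |w.im| ≤ |T|) :
    ‖χ.LFunction w - χ.LFunction z‖ ≤ 36 * LL q T ^ 2 * ‖w - z‖ := by
  have hq : 1 ≤ q := Nat.one_le_iff_ne_zero.2 (NeZero.ne q)
  have hconv : Convex ℝ ({s : ℂ | 1 ≤ s.re} ∩ {s : ℂ | |s.im| ≤ |T|}) := by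
    refine Convex.inter (convex_halfSpace_re_ge 1) ?_
    have : {s : ℂ | |s.im| ≤ |T|} = {s : ℂ | -|T| ≤ s.im} ∩ {s : ℂ | s.im ≤ |T|} := by
      ext s
      simp [abs_le]
    rw [this]
    exact Convex.inter (convex_halfSpace_im_ge _) (convex_halfSpace_im_le _)
  refine hconv.norm_image_sub_le_of_norm_deriv_le (f := χ.LFunction)
    (fun s _ => (DirichletCharacter.differentiable_LFunction hχ) s) ?_ ⟨hz, hzT⟩ ⟨hw, hwT⟩
  intro s hs
  refine (norm_deriv_le hχ hs.1).trans ?_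
  have h1 := LL_mono hq hs.2
  have h2 := one_le_LL hq s.im
  have h3 : LL q s.im ^ 2 ≤ LL q T ^ 2 := pow_le_pow_left₀ (by linarith) h1 2
  linarith

/-- CNT. -/
theorem cnt : CntStatement := by
  refine ⟨144, by norm_num, ?_⟩
  intro q _ χ hχ
  have hq : 1 ≤ q := Nat.one_le_iff_ne_zero.2 (NeZero.ne q)
  refine ⟨?_, ?_⟩
  · intro σ σ' t hσ hσσ' hσ'
    have hs : 1 < ((σ : ℂ) + t * I).re := by simpa using hσ
    have hs' : 1 < ((σ' : ℂ) + t * I).re := by simpa using hσ.trans_le hσσ'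
    have him : ((σ : ℂ) + t * I).im = t := by simp
    have him' : ((σ' : ℂ) + t * I).im = t := by simp
    rw [← χ.LFunction_eq_LSeries hs, ← χ.LFunction_eq_LSeries hs']
    have h1 := norm_sub_le hχ hs.le hs'.le (T := t) (by rw [him]) (by rw [him'])
    refine h1.trans ?_
    have h2 : ‖((σ' : ℂ) + t * I) - ((σ : ℂ) + t * I)‖ = σ' - σ := by
      rw [add_sub_add_right_eq_sub, ← ofReal_sub, Complex.norm_real, Real.norm_eq_abs,
        abs_of_nonneg (by linarith)]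
    rw [h2]
    have h3 : 0 ≤ (σ' - σ) * LL q t ^ 2 := mul_nonneg (by linarith) (sq_nonneg _)
    nlinarith
  · intro σ t hσ _ ht
    have hs : 1 < ((σ : ℂ) + t * I).re := by simpa using hσ
    have him : ((σ : ℂ) + t * I).im = t := by simp
    rw [← χ.LFunction_eq_LSeries hs]
    have h1 := norm_sub_le hχ (z := 1) (w := (σ : ℂ) + t * I) (T := 1) (by simp) hs.le
      (by simp) (by rw [him, abs_one]; exact ht)
    refine h1.trans ?_
    have h2 : ‖((σ : ℂ) + t * I) - 1‖ ≤ (σ - 1) + |t| := by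
      have : ((σ : ℂ) + t * I) - 1 = ((σ - 1 : ℝ) : ℂ) + (t : ℂ) * I := by push_cast; ring
      rw [this]
      refine (norm_add_le _ _).trans ?_
      rw [norm_mul, Complex.norm_I, mul_one, Complex.norm_real, Complex.norm_real,
        Real.norm_eq_abs, Real.norm_eq_abs, abs_of_pos (by linarith : 0 < σ - 1)]
    have h3 := LL_one_le hq
    have h4 := one_le_LL hq 1
    have h5 : LL q 1 ^ 2 ≤ (2 * LL q 0) ^ 2 := pow_le_pow_left₀ (by linarith) h3 2
    have h6 : 0 ≤ (σ - 1) + |t| := by have := abs_nonneg t; linarith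
    calc 36 * LL q 1 ^ 2 * ‖((σ : ℂ) + t * I) - 1‖
        ≤ 36 * (2 * LL q 0) ^ 2 * ((σ - 1) + |t|) := by
          apply mul_le_mul _ h2 (norm_nonneg _) (by positivity)
          linarith
      _ = 144 * ((σ - 1) + |t|) * LL q 0 ^ 2 := by ring

end Pool.Agent.Lib.MP_6bc78b_nt.SW.H76
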