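import Pool.Agent.Lib.MP_6bc78b_nt.SW.H76.Cnt

/-! LBC: lower bound for `|L(s,χ)|`, `χ² ≠ 1`, to the right of 1. -/

set_option autoImplicit false

open Complex Finset DirichletCharacter

namespace Pool.Agent.Lib.MP_6bc78b_nt.SW.H76

/-- The real variable part of the argument. -/
theorem real_part {C1 A κ β l : ℝ} (hC1 : 0 < C1) (hκ : 0 < κ)
    (hκ' : κ ^ 4 * A ≤ 1) (hβ : 0 < β) (hβ1 : β ≤ 1) (hβ' : C1 * β ≤ κ / 2)
    (hl : 1 ≤ l) (L : ℝ → ℝ) (hL : ∀ x, 0 ≤ L x)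
    (h341 : ∀ x, 0 < x → x ≤ 1 → x ^ 3 ≤ A * l * L x ^ 4)
    (hcnt : ∀ x y, 0 < x → x ≤ y → y ≤ 1 → L y - L x ≤ C1 * (y - x) * l ^ 2)
    (x : ℝ) (hx : 0 < x) (hx1 : x ≤ 1) :
    β ^ 3 * (κ / 2) ≤ l ^ 7 * L x := by
  have hl0 : 0 < l := by linarith
  set e : ℝ := β ^ 4 / l ^ 9 with he
  have he0 : 0 < e := by positivity
  have he1 : e ≤ 1 := by
    rw [he, div_le_one (by positivity)]
    have h1 : β ^ 4 ≤ 1 := pow_le_one₀ hβ.le hβ1
    have h2 : 1 ≤ l ^ 9 := one_le_pow₀ hl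
    linarith
  have key : ∀ y, e ≤ y → y ≤ 1 → β ^ 3 * κ ≤ l ^ 7 * L y := by
    intro y hy hy1
    have h1 := h341 y (he0.trans_le hy) hy1
    have h2 : e ^ 3 ≤ A * l * L y ^ 4 := (pow_le_pow_left₀ he0.le hy 3).trans h1
    have h3 : (β ^ 3 * κ) ^ 4 ≤ (l ^ 7 * L y) ^ 4 := by
      have h4 : β ^ 12 ≤ A * l ^ 28 * L y ^ 4 := by
        have h5 : e ^ 3 * l ^ 27 = β ^ 12 := by
          rw [he]
          field_simp
        have h6 : e ^ 3 * l ^ 27 ≤ A * l * L y ^ 4 * l ^ 27 :=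
          mul_le_mul_of_nonneg_right h2 (by positivity)
        rw [h5] at h6
        calc β ^ 12 ≤ A * l * L y ^ 4 * l ^ 27 := h6
          _ = A * l ^ 28 * L y ^ 4 := by ring
      calc (β ^ 3 * κ) ^ 4 = κ ^ 4 * β ^ 12 := by ring
        _ ≤ κ ^ 4 * (A * l ^ 28 * L y ^ 4) :=
            mul_le_mul_of_nonneg_left h4 (by positivity)
        _ = (κ ^ 4 * A) * (l ^ 28 * L y ^ 4) := by ring
        _ ≤ 1 * (l ^ 28 * L y ^ 4) := by
            apply mul_le_mul_of_nonneg_right hκ'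
            have := hL y
            positivity
        _ = (l ^ 7 * L y) ^ 4 := by ring
    exact le_of_pow_le_pow_left₀ (by norm_num) (mul_nonneg (by positivity) (hL y)) h3
  rcases le_total e x with h | h
  · have h1 := key x h hx1
    have h2 : β ^ 3 * (κ / 2) ≤ β ^ 3 * κ := by
      have : 0 ≤ β ^ 3 * κ := by positivity
      linarith [show β ^ 3 * (κ / 2) = (β ^ 3 * κ) / 2 by ring]
    exact h2.trans h1
  · have h1 := key e le_rfl he1
    have h2 := hcnt x e hx h he1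
    have h3 : C1 * (e - x) * l ^ 2 ≤ C1 * e * l ^ 2 := by
      have : 0 ≤ C1 * l ^ 2 := by positivity
      nlinarith
    have h4 : l ^ 7 * (C1 * e * l ^ 2) = C1 * β * β ^ 3 := by
      rw [he]
      field_simp
    have h5 : C1 * β * β ^ 3 ≤ κ / 2 * β ^ 3 :=
      mul_le_mul_of_nonneg_right hβ' (by positivity)
    have h6 : l ^ 7 * (L e - L x) ≤ l ^ 7 * (C1 * e * l ^ 2) :=
      mul_le_mul_of_nonneg_left (h2.trans h3) (by positivity)
    nlinarith

/-- LBC: lower bound for complex characters. -/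
theorem lbc (hN : UbnStatement) (hT : TlbStatement) (hC : CntStatement) : LbcStatement := by
  obtain ⟨C2, hC2, hN⟩ := hN 0
  obtain ⟨-, hT2⟩ := hT
  obtain ⟨C1, hC1, hC⟩ := hC
  obtain ⟨κ, hκ0, hκ⟩ : ∃ κ : ℝ, 0 < κ ∧ κ ^ 4 * (16 * C2) ≤ 1 := by
    refine ⟨min 1 (1 / (16 * C2)), by positivity, ?_⟩
    set m := min (1 : ℝ) (1 / (16 * C2)) with hm
    have h0 : 0 < m := by positivity
    have h1 : m ≤ 1 := min_le_left _ _
    have h2 : m ≤ 1 / (16 * C2) := min_le_right _ _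
    have h3 : m ^ 4 ≤ m := by
      calc m ^ 4 ≤ m ^ 1 := pow_le_pow_of_le_one h0.le h1 (by norm_num)
        _ = m := pow_one m
    calc m ^ 4 * (16 * C2) ≤ (1 / (16 * C2)) * (16 * C2) := by
          apply mul_le_mul_of_nonneg_right (h3.trans h2); positivity
      _ = 1 := by field_simp
  obtain ⟨β, hβ0, hβ1, hβ2⟩ : ∃ β : ℝ, 0 < β ∧ β ≤ 1 ∧ C1 * β ≤ κ / 2 :=
    ⟨min 1 (κ / (2 * C1)), by positivity, min_le_left _ _, by
      have h := min_le_right 1 (κ / (2 * C1))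
      calc C1 * min 1 (κ / (2 * C1)) ≤ C1 * (κ / (2 * C1)) := by gcongr
        _ = κ / 2 := by field_simp⟩
  refine ⟨β ^ 3 * (κ / 2), by positivity, ?_⟩
  intro q hq χ hχ hχ2 σ t hσ hσ2
  haveI : NeZero q := ⟨by omega⟩
  set l : ℝ := LL q t with hl
  have hl1 : 1 ≤ l := one_le_LL hq t
  have hl0 : 0 < l := by linarith
  have hmain := real_part (C1 := C1) (A := 16 * C2) (κ := κ) (β := β) (l := l)
    hC1 hκ0 hκ hβ0 hβ1 hβ2 hl1
    (fun x => ‖LSeries (fun n : ℕ => χ (n : ZMod q)) ((1 + x : ℝ) + t * I)‖)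
    (fun x => norm_nonneg _) ?_ ?_ (σ - 1) (by linarith) (by linarith)
  · have h1 : (1 + (σ - 1) : ℝ) = σ := by ring
    simp only [h1] at hmain
    exact hmain
  · intro x hx hx1
    have h341 := norm_LSeries_product_ge_one χ hx t
    simp only [norm_mul, norm_pow] at h341
    have e1 : (1 + (x : ℂ)) = ((1 + x : ℝ) : ℂ) + (0 : ℝ) * I := by push_cast; ring
    have e2 : (1 + (x : ℂ) + I * t) = ((1 + x : ℝ) : ℂ) + t * I := by push_cast; ring
    have e3 : (1 + (x : ℂ) + 2 * I * t) = ((1 + x : ℝ) : ℂ) + (2 * t : ℝ) * I := by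
      push_cast; ring
    have h0 := hT2 q hq 1 (1 + x) 0 (by linarith) (by linarith)
    have h2 := hN q hq (χ ^ 2) hχ2 (1 + x) (2 * t) (by linarith) (by linarith)
    rw [e2, e3] at h341
    rw [← e1] at h0
    have h0' : ‖LSeries (fun n : ℕ => (1 : DirichletCharacter ℂ q) (n : ZMod q)) (1 + x)‖ ≤
        2 / x := by
      have : (1 + x - 1 : ℝ) = x := by ring
      rwa [this] at h0
    have e4 : chiLog (χ ^ 2) 0 = fun n : ℕ => (χ ^ 2) (n : ZMod q) := by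
      funext n
      simp [chiLog]
    have h2' : ‖LSeries (fun n : ℕ => (χ ^ 2) (n : ZMod q))
        (((1 + x : ℝ) : ℂ) + (2 * t : ℝ) * I)‖ ≤ 2 * C2 * l := by
      rw [e4] at h2
      refine h2.trans ?_
      have h3 := LL_two hq t
      rw [zero_add, pow_one]
      nlinarith
    set P := ‖LSeries (fun n : ℕ => χ (n : ZMod q)) (((1 + x : ℝ) : ℂ) + t * I)‖ with hP
    have hP0 : 0 ≤ P := norm_nonneg _
    have h5 : 1 ≤ (2 / x) ^ 3 * P ^ 4 * (2 * C2 * l) := by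
      refine le_trans h341 ?_
      apply mul_le_mul _ h2' (norm_nonneg _) (by positivity)
      apply mul_le_mul_of_nonneg_right _ (by positivity)
      exact pow_le_pow_left₀ (norm_nonneg _) h0' 3
    have h6 : x ^ 3 * ((2 / x) ^ 3 * P ^ 4 * (2 * C2 * l)) = 16 * C2 * l * P ^ 4 := by
      field_simp
      ring
    calc x ^ 3 = x ^ 3 * 1 := (mul_one _).symm
      _ ≤ x ^ 3 * ((2 / x) ^ 3 * P ^ 4 * (2 * C2 * l)) :=
          mul_le_mul_of_nonneg_left h5 (by positivity)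
      _ = _ := h6
  · intro x y hx hxy hy1
    have h1 := (hC q χ hχ).1 (1 + x) (1 + y) t (by linarith) (by linarith) (by linarith)
    have h2 := norm_sub_norm_le
      (LSeries (fun n : ℕ => χ (n : ZMod q)) ((1 + y : ℝ) + t * I))
      (LSeries (fun n : ℕ => χ (n : ZMod q)) ((1 + x : ℝ) + t * I))
    have h3 : (1 + y - (1 + x) : ℝ) = y - x := by ring
    rw [h3] at h1
    exact h2.trans h1

end Pool.Agent.Lib.MP_6bc78b_nt.SW.H76
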