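import Pool.Agent.Lib.MP_6bc78b_nt.SW.Iface

/-! UNS: removal of the weights `1 - n/x` and `(log n)^k`. -/

set_option autoImplicit false

open Finset

namespace Pool.Agent.Lib.MP_6bc78b_nt.SW.H76

theorem Icc_split (N H : ℕ) : Icc 1 (N + H) = Icc 1 N ∪ Ioc N (N + H) := by
  ext n
  simp only [mem_union, mem_Icc, mem_Ioc]
  omega

theorem disj (N H : ℕ) : Disjoint (Icc 1 N) (Ioc N (N + H)) := by
  rw [Finset.disjoint_left]
  intro n h1 h2
  simp only [mem_Icc] at h1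
  simp only [mem_Ioc] at h2
  omega

theorem diff_id (a : ℕ → ℂ) (N H : ℕ) :
    (H : ℂ) * ∑ n ∈ Icc 1 N, a n =
      ∑ n ∈ Icc 1 (N + H), a n * (((N + H : ℕ) : ℂ) - n) - ∑ n ∈ Icc 1 N, a n * ((N : ℂ) - n) -
        ∑ n ∈ Ioc N (N + H), a n * (((N + H : ℕ) : ℂ) - n) := by
  rw [Icc_split, sum_union (disj N H), add_sub_right_comm, add_sub_cancel_right,
    ← sum_sub_distrib, mul_sum]
  refine sum_congr rfl fun n _ => ?_
  push_cast
  ring

theorem weight_bound (a : ℕ → ℂ) (K : ℝ) (N : ℕ) (hN : 1 ≤ N)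
    (h : ‖∑ n ∈ Icc 1 ⌊(N : ℝ)⌋₊, a n * (1 - (n : ℂ) / ((N : ℝ) : ℂ))‖ ≤ K * N) :
    ‖∑ n ∈ Icc 1 N, a n * ((N : ℂ) - n)‖ ≤ K * N ^ 2 := by
  have hN0 : (N : ℂ) ≠ 0 := by
    exact_mod_cast (by omega : N ≠ 0)
  have e : ∑ n ∈ Icc 1 N, a n * ((N : ℂ) - n) =
      (N : ℂ) * ∑ n ∈ Icc 1 ⌊(N : ℝ)⌋₊, a n * (1 - (n : ℂ) / ((N : ℝ) : ℂ)) := by
    rw [Nat.floor_natCast, mul_sum]
    refine sum_congr rfl fun n _ => ?_
    push_cast
    field_simp
  rw [e, norm_mul, Complex.norm_natCast]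
  have hN1 : (0 : ℝ) ≤ N := Nat.cast_nonneg N
  calc (N : ℝ) * ‖∑ n ∈ Icc 1 ⌊(N : ℝ)⌋₊, a n * (1 - (n : ℂ) / ((N : ℝ) : ℂ))‖
      ≤ N * (K * N) := mul_le_mul_of_nonneg_left h hN1
    _ = K * N ^ 2 := by ring

/-- Partial summation with a decreasing weight. -/
theorem abel (a : ℕ → ℂ) (w : ℕ → ℝ) (M : ℝ) (Y Z : ℕ)
    (hA : ∀ N, N ≤ Z → ‖∑ n ∈ Icc 1 N, a n‖ ≤ M)
    (hw : ∀ n, Y < n → 0 ≤ w n ∧ w (n + 1) ≤ w n) (N : ℕ) (hYN : Y ≤ N) (hNZ : N ≤ Z) :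
    ‖∑ n ∈ Ioc Y N, a n * (w n : ℂ)‖ ≤ 2 * M * w (Y + 1) := by
  have key : ∀ N, Y ≤ N → N ≤ Z →
      ‖∑ n ∈ Ioc Y N, a n * (w n : ℂ) - (∑ n ∈ Icc 1 N, a n) * (w (N + 1) : ℂ)‖ ≤
        M * (2 * w (Y + 1) - w (N + 1)) := by
    intro N hN
    induction N, hN using Nat.le_induction with
    | base =>
      intro h
      rw [Ioc_self, sum_empty, zero_sub, norm_neg, norm_mul, Complex.norm_real,
        Real.norm_eq_abs, abs_of_nonneg (hw (Y + 1) (by omega)).1]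
      have h1 := mul_le_mul_of_nonneg_right (hA Y h) (hw (Y + 1) (by omega)).1
      linarith
    | succ N hN ih =>
      intro h
      have h1 := ih (by omega)
      have h2 := hA (N + 1) h
      have h3 := hw (N + 1) (by omega)
      have e1 : ∑ n ∈ Ioc Y (N + 1), a n * (w n : ℂ) =
          ∑ n ∈ Ioc Y N, a n * (w n : ℂ) + a (N + 1) * (w (N + 1) : ℂ) := by
        rw [sum_Ioc_succ_top (by omega)]
      have e2 : ∑ n ∈ Icc 1 (N + 1), a n = ∑ n ∈ Icc 1 N, a n + a (N + 1) := by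
        rw [sum_Icc_succ_top (by omega)]
      have e3 : ∑ n ∈ Ioc Y (N + 1), a n * (w n : ℂ) -
          (∑ n ∈ Icc 1 (N + 1), a n) * (w (N + 1 + 1) : ℂ) =
          (∑ n ∈ Ioc Y N, a n * (w n : ℂ) - (∑ n ∈ Icc 1 N, a n) * (w (N + 1) : ℂ)) +
            (∑ n ∈ Icc 1 (N + 1), a n) * ((w (N + 1) - w (N + 1 + 1) : ℝ) : ℂ) := by
        rw [e1, e2]
        push_cast
        ring
      rw [e3]
      refine (norm_add_le _ _).trans ?_
      have h4 : ‖(∑ n ∈ Icc 1 (N + 1), a n) * ((w (N + 1) - w (N + 1 + 1) : ℝ) : ℂ)‖ ≤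
          M * (w (N + 1) - w (N + 1 + 1)) := by
        rw [norm_mul, Complex.norm_real, Real.norm_eq_abs,
          abs_of_nonneg (by linarith [h3.2])]
        exact mul_le_mul_of_nonneg_right h2 (by linarith [h3.2])
      calc _ ≤ M * (2 * w (Y + 1) - w (N + 1)) + M * (w (N + 1) - w (N + 1 + 1)) :=
            add_le_add h1 h4
        _ = _ := by ring
  have h1 := key N hYN hNZ
  have h2 := hA N hNZ
  have h3 := (hw (N + 1) (by omega)).1
  have h4 : ‖(∑ n ∈ Icc 1 N, a n) * (w (N + 1) : ℂ)‖ ≤ M * w (N + 1) := by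
    rw [norm_mul, Complex.norm_real, Real.norm_eq_abs, abs_of_nonneg h3]
    exact mul_le_mul_of_nonneg_right h2 h3
  have e : ∑ n ∈ Ioc Y N, a n * (w n : ℂ) =
      (∑ n ∈ Ioc Y N, a n * (w n : ℂ) - (∑ n ∈ Icc 1 N, a n) * (w (N + 1) : ℂ)) +
        (∑ n ∈ Icc 1 N, a n) * (w (N + 1) : ℂ) := by ring
  rw [e]
  refine (norm_add_le _ _).trans ?_
  calc _ ≤ M * (2 * w (Y + 1) - w (N + 1)) + M * w (N + 1) := add_le_add h1 h4
    _ = _ := by ring

/-- The trivial bound. -/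
theorem triv (b : ℕ → ℂ) (hb : ∀ n : ℕ, 1 ≤ n → ‖b n‖ ≤ Real.log n) (N : ℕ) (X : ℝ)
    (hX : (N : ℝ) ≤ X) : ‖∑ n ∈ Icc 1 N, b n‖ ≤ N * Real.log X := by
  have h1 : ∀ n ∈ Icc 1 N, ‖b n‖ ≤ Real.log X := by
    intro n hn
    rw [mem_Icc] at hn
    refine (hb n hn.1).trans (Real.log_le_log (by exact_mod_cast hn.1) ?_)
    exact (Nat.cast_le.2 hn.2).trans hX
  have h2 := norm_sum_le_of_le (Icc 1 N) h1
  rw [sum_const, Nat.card_Icc, nsmul_eq_mul] at h2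
  simpa using h2

/-- The bound for the sums `∑ b n (log n)^k`, `n ≤ N`. -/
theorem boundA (k : ℕ) (b : ℕ → ℂ) (κ X r : ℝ) (hκ : 1 ≤ κ) (hX : 3 ≤ X)
    (hr : r ^ 2 = Real.log X) (hr1 : 1 ≤ r) (hκr : κ ≤ r ^ (k + 1))
    (hb : ∀ n : ℕ, 1 ≤ n → ‖b n‖ ≤ Real.log n)
    (hT : ∀ x : ℝ, 1 ≤ x → x ≤ 2 * X →
      ‖∑ n ∈ Icc 1 ⌊x⌋₊, b n * ((Real.log n ^ k : ℝ) : ℂ) * (1 - (n : ℂ) / x)‖ ≤ κ ^ 2 * x)
    (N : ℕ) (hN : (N : ℝ) ≤ X) :
    ‖∑ n ∈ Icc 1 N, b n * ((Real.log n ^ k : ℝ) : ℂ)‖ ≤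
      (5 + 2 ^ (k + 1) * (1 + (k + 1).factorial)) * κ * X * r ^ (k + 1) := by
  have hr0 : 0 < r := by linarith
  have hX0 : 0 < X := by linarith
  have hκ0 : 0 < κ := by linarith
  rcases Nat.eq_zero_or_pos N with h0 | hNpos
  · rw [h0]
    simp only [Icc_eq_empty_of_lt (zero_lt_one), sum_empty, norm_zero]
    positivity
  have hN1 : (1 : ℝ) ≤ N := by exact_mod_cast hNpos
  set a : ℕ → ℂ := fun n => b n * ((Real.log n ^ k : ℝ) : ℂ) with ha
  set h : ℝ := N * κ / r ^ (k + 1) with hh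
  have hh0 : 0 < h := by positivity
  have hhN : h ≤ N := by
    rw [hh, div_le_iff₀ (by positivity)]
    exact mul_le_mul_of_nonneg_left hκr (by linarith)
  set H : ℕ := ⌈h⌉₊ with hH
  have hH1 : 1 ≤ H := Nat.one_le_ceil_iff.2 hh0
  have hHN : H ≤ N := Nat.ceil_le.2 hhN
  have hHh : (H : ℝ) ≤ h + 1 := (Nat.ceil_lt_add_one hh0.le).le
  have hhH : h ≤ H := Nat.le_ceil h
  have hHN' : (H : ℝ) ≤ N := by exact_mod_cast hHN
  have hH1' : (1 : ℝ) ≤ H := by exact_mod_cast hH1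
  have w1 := weight_bound a (κ ^ 2) N hNpos
    (hT N hN1 (by linarith))
  have w2 := weight_bound a (κ ^ 2) (N + H) (by omega)
    (hT ((N + H : ℕ) : ℝ) (by push_cast; linarith) (by push_cast; linarith))
  -- log (2 X) ≤ 2 r²
  have hlog2 : Real.log (2 * X) ≤ 2 * r ^ 2 := by
    rw [Real.log_mul (by norm_num) (by linarith), hr, two_mul]
    have := Real.log_le_log (by norm_num : (0 : ℝ) < 2) (by linarith : (2 : ℝ) ≤ X)
    linarith
  have w3 : ‖∑ n ∈ Ioc N (N + H), a n * (((N + H : ℕ) : ℂ) - n)‖ ≤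
      H * ((2 * r ^ 2) ^ (k + 1) * H) := by
    have h1 : ∀ n ∈ Ioc N (N + H), ‖a n * (((N + H : ℕ) : ℂ) - n)‖ ≤
        (2 * r ^ 2) ^ (k + 1) * H := by
      intro n hn
      rw [mem_Ioc] at hn
      have hn1 : 1 ≤ n := by omega
      have hn1' : (1 : ℝ) ≤ n := by exact_mod_cast hn1
      have hlogn0 : 0 ≤ Real.log n := Real.log_nonneg hn1'
      have hlogn : Real.log n ≤ 2 * r ^ 2 := by
        refine (Real.log_le_log (by linarith) ?_).trans hlog2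
        have : (n : ℝ) ≤ N + H := by exact_mod_cast hn.2
        linarith
      have e1 : ‖a n‖ ≤ (2 * r ^ 2) ^ (k + 1) := by
        have e2 : ‖a n‖ = ‖b n‖ * Real.log n ^ k := by
          rw [ha]
          simp only
          rw [norm_mul, Complex.norm_real, Real.norm_eq_abs, abs_of_nonneg (by positivity)]
        rw [e2]
        calc ‖b n‖ * Real.log n ^ k ≤ Real.log n * Real.log n ^ k :=
              mul_le_mul_of_nonneg_right (hb n hn1) (by positivity)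
          _ = Real.log n ^ (k + 1) := by ring
          _ ≤ (2 * r ^ 2) ^ (k + 1) := pow_le_pow_left₀ hlogn0 hlogn _
      have e3 : ‖(((N + H : ℕ) : ℂ) - n)‖ ≤ H := by
        have e4 : (((N + H : ℕ) : ℂ) - n) = (((N + H - n : ℕ) : ℝ) : ℂ) := by
          rw [Complex.ofReal_natCast, Nat.cast_sub hn.2]
        rw [e4, Complex.norm_real, Real.norm_eq_abs, abs_of_nonneg (Nat.cast_nonneg _)]
        exact_mod_cast (by omega : N + H - n ≤ H)
      rw [norm_mul]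
      exact mul_le_mul e1 e3 (norm_nonneg _) (by positivity)
    have h2 := norm_sum_le_of_le (Ioc N (N + H)) h1
    rw [sum_const, Nat.card_Ioc, nsmul_eq_mul] at h2
    have e : N + H - N = H := by omega
    rw [e] at h2
    exact h2
  have hid := diff_id a N H
  have hnorm : (H : ℝ) * ‖∑ n ∈ Icc 1 N, a n‖ ≤
      κ ^ 2 * ((N + H : ℕ) : ℝ) ^ 2 + κ ^ 2 * (N : ℝ) ^ 2 + H * ((2 * r ^ 2) ^ (k + 1) * H) := by
    have h1 : (H : ℝ) * ‖∑ n ∈ Icc 1 N, a n‖ = ‖(H : ℂ) * ∑ n ∈ Icc 1 N, a n‖ := by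
      rw [norm_mul, Complex.norm_natCast]
    rw [h1, hid]
    refine (norm_sub_le _ _).trans ?_
    have h2 := norm_sub_le (∑ n ∈ Icc 1 (N + H), a n * (((N + H : ℕ) : ℂ) - n))
      (∑ n ∈ Icc 1 N, a n * ((N : ℂ) - n))
    linarith
  have h5 : (H : ℝ) * ‖∑ n ∈ Icc 1 N, a n‖ ≤
      H * (5 * κ * N * r ^ (k + 1) + 2 ^ (k + 1) * (N * κ * r ^ (k + 1) + r ^ (2 * (k + 1)))) := by
    have h6 : κ ^ 2 * ((N + H : ℕ) : ℝ) ^ 2 + κ ^ 2 * (N : ℝ) ^ 2 ≤ 5 * κ ^ 2 * (N : ℝ) ^ 2 := by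
      push_cast
      have h7 : ((N : ℝ) + H) ^ 2 ≤ (2 * N) ^ 2 := pow_le_pow_left₀ (by positivity) (by linarith) 2
      nlinarith [mul_le_mul_of_nonneg_left h7 (sq_nonneg κ)]
    have h8 : 5 * κ ^ 2 * (N : ℝ) ^ 2 ≤ H * (5 * κ * N * r ^ (k + 1)) := by
      have h9 : 5 * κ ^ 2 * (N : ℝ) ^ 2 = h * (5 * κ * N * r ^ (k + 1)) := by
        rw [hh]
        field_simp
      rw [h9]
      exact mul_le_mul_of_nonneg_right hhH (by positivity)
    have h10 : (2 * r ^ 2) ^ (k + 1) * (H : ℝ) ≤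
        2 ^ (k + 1) * (N * κ * r ^ (k + 1) + r ^ (2 * (k + 1))) := by
      calc (2 * r ^ 2) ^ (k + 1) * (H : ℝ) ≤ (2 * r ^ 2) ^ (k + 1) * (h + 1) :=
            mul_le_mul_of_nonneg_left hHh (by positivity)
        _ = 2 ^ (k + 1) * (N * κ * r ^ (k + 1) + r ^ (2 * (k + 1))) := by
            rw [hh, mul_pow, ← pow_mul]
            have e : r ^ (2 * (k + 1)) = r ^ (k + 1) * r ^ (k + 1) := by rw [two_mul, pow_add]
            rw [e]
            field_simp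
    have h11 := mul_le_mul_of_nonneg_left h10 (by positivity : (0 : ℝ) ≤ (H : ℝ))
    calc _ ≤ _ := hnorm
      _ ≤ 5 * κ ^ 2 * (N : ℝ) ^ 2 + H * ((2 * r ^ 2) ^ (k + 1) * H) := by linarith
      _ ≤ H * (5 * κ * N * r ^ (k + 1)) +
          H * (2 ^ (k + 1) * (N * κ * r ^ (k + 1) + r ^ (2 * (k + 1)))) := by linarith
      _ = _ := by ring
  have h12 := le_of_mul_le_mul_left h5 (by linarith)
  refine h12.trans ?_
  -- r^(2(k+1)) ≤ (k+1)! X
  have h13 : r ^ (2 * (k + 1)) ≤ (k + 1).factorial * X := by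
    have h14 := Real.pow_div_factorial_le_exp (Real.log X) (Real.log_nonneg (by linarith)) (k + 1)
    rw [Real.exp_log hX0, div_le_iff₀ (by positivity), ← hr, ← pow_mul] at h14
    linarith
  have h15 : r ^ (2 * (k + 1)) ≤ (k + 1).factorial * (κ * X * r ^ (k + 1)) := by
    refine h13.trans (mul_le_mul_of_nonneg_left ?_ (by positivity))
    have h16 : 1 ≤ r ^ (k + 1) := one_le_pow₀ hr1
    calc X = 1 * X * 1 := by ring
      _ ≤ κ * X * r ^ (k + 1) := by gcongr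
  have h17 : (N : ℝ) * κ * r ^ (k + 1) ≤ κ * X * r ^ (k + 1) := by
    rw [mul_comm (N : ℝ) κ]
    gcongr
  have h18 : 5 * κ * N * r ^ (k + 1) ≤ 5 * (κ * X * r ^ (k + 1)) := by
    calc 5 * κ * N * r ^ (k + 1) = 5 * (N * κ * r ^ (k + 1)) := by ring
      _ ≤ _ := mul_le_mul_of_nonneg_left h17 (by norm_num)
  have h19 : (2 : ℝ) ^ (k + 1) * (N * κ * r ^ (k + 1) + r ^ (2 * (k + 1))) ≤
      2 ^ (k + 1) * (κ * X * r ^ (k + 1) + (k + 1).factorial * (κ * X * r ^ (k + 1))) :=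
    mul_le_mul_of_nonneg_left (add_le_add h17 h15) (by positivity)
  calc _ ≤ 5 * (κ * X * r ^ (k + 1)) +
        2 ^ (k + 1) * (κ * X * r ^ (k + 1) + (k + 1).factorial * (κ * X * r ^ (k + 1))) :=
        add_le_add h18 h19
    _ = _ := by ring

/-- UNS. -/
theorem uns : UnsStatement := by
  intro k hk
  set C4 : ℝ := 5 + 2 ^ (k + 1) * (1 + (k + 1).factorial) with hC4
  have hC4pos : 0 < C4 := by positivity
  refine ⟨(k + 1).factorial + 2 ^ (k + 1) * C4, by positivity, ?_⟩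
  intro b K X hK hX hb hT
  set κ : ℝ := Real.sqrt K with hκdef
  have hκ2 : κ ^ 2 = K := Real.sq_sqrt (by linarith)
  have hκ : 1 ≤ κ := Real.one_le_sqrt.2 hK
  have hX0 : 0 < X := by linarith
  have hlogX : 1 ≤ Real.log X := by
    rw [Real.le_log_iff_exp_le hX0]
    have := Real.exp_one_lt_d9
    linarith
  set r : ℝ := Real.sqrt (Real.log X) with hrdef
  have hr : r ^ 2 = Real.log X := Real.sq_sqrt (by linarith)
  have hr1 : 1 ≤ r := Real.one_le_sqrt.2 hlogX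
  have hr0 : 0 < r := by linarith
  obtain ⟨m, rfl⟩ : ∃ m, k = m + 1 := ⟨k - 1, by omega⟩
  have hpow : Real.log X ^ (-((((m + 1 : ℕ) : ℝ) - 1) / 2)) = (r ^ m)⁻¹ := by
    have e1 : -((((m + 1 : ℕ) : ℝ) - 1) / 2) = -((m : ℝ) / 2) := by push_cast; ring
    rw [e1, Real.rpow_neg (by linarith), hrdef, Real.sqrt_eq_rpow, ← Real.rpow_natCast,
      ← Real.rpow_mul (by linarith)]
    congr 2
    ring
  rw [hpow, ← div_eq_mul_inv, le_div_iff₀ (by positivity)]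
  have hN : ((⌊X⌋₊ : ℕ) : ℝ) ≤ X := Nat.floor_le hX0.le
  have hgrow : r ^ (2 * (m + 2)) ≤ (m + 2).factorial * X := by
    have h14 := Real.pow_div_factorial_le_exp (Real.log X) (by linarith) (m + 2)
    rw [Real.exp_log hX0, div_le_iff₀ (by positivity), ← hr, ← pow_mul] at h14
    linarith
  have hfac1 : (1 : ℝ) ≤ (m + 2).factorial := by
    exact_mod_cast Nat.one_le_iff_ne_zero.2 (Nat.factorial_ne_zero _)
  have hgrow2 : r ^ (m + 2) ≤ (m + 2).factorial * Real.sqrt X := by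
    have e1 : r ^ (m + 2) = Real.sqrt (r ^ (2 * (m + 2))) := by
      rw [mul_comm 2 (m + 2), pow_mul, Real.sqrt_sq (by positivity)]
    rw [e1]
    refine (Real.sqrt_le_sqrt hgrow).trans ?_
    rw [Real.sqrt_mul (by positivity)]
    refine mul_le_mul_of_nonneg_right ?_ (Real.sqrt_nonneg _)
    rw [Real.sqrt_le_left (by positivity)]
    nlinarith
  rcases le_or_gt κ (r ^ (m + 1 + 1)) with hcase | hcase
  · -- the main case
    have hA := boundA (m + 1) b κ X r hκ hX hr hr1 hcase hb (by rw [hκ2]; exact hT)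
    rw [← hC4] at hA
    set M : ℝ := C4 * κ * X * r ^ (m + 1 + 1) with hM
    have hM0 : 0 ≤ M := by positivity
    set Y : ℕ := ⌊Real.sqrt X⌋₊ with hY
    have hsq1 : 1 ≤ Real.sqrt X := Real.one_le_sqrt.2 (by linarith)
    have hYle : (Y : ℝ) ≤ Real.sqrt X := Nat.floor_le (Real.sqrt_nonneg _)
    have hY1 : 1 ≤ Y := Nat.le_floor (by exact_mod_cast hsq1)
    have hYX : Y ≤ ⌊X⌋₊ := by
      refine Nat.floor_mono ?_
      calc Real.sqrt X = Real.sqrt X * 1 := (mul_one _).symm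
        _ ≤ Real.sqrt X * Real.sqrt X := mul_le_mul_of_nonneg_left hsq1 (Real.sqrt_nonneg _)
        _ = X := Real.mul_self_sqrt hX0.le
    have hlogn : ∀ n : ℕ, Y < n → r ^ 2 / 2 ≤ Real.log n := by
      intro n hn
      have h1 : Real.sqrt X < n := by
        rw [hY] at hn
        exact (Nat.floor_lt (Real.sqrt_nonneg _)).1 hn
      rw [hr, ← Real.log_sqrt hX0.le]
      exact Real.log_le_log (by linarith) h1.le
    have hab := abel (fun n => b n * ((Real.log n ^ (m + 1) : ℝ) : ℂ))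
      (fun n => (Real.log n ^ (m + 1))⁻¹) M Y ⌊X⌋₊
      (fun N hN' => hA N (le_trans (Nat.cast_le.2 hN') hN)) (by
        intro n hn
        have h1 := hlogn n hn
        have h2 : 0 < Real.log n := lt_of_lt_of_le (by positivity) h1
        refine ⟨by positivity, ?_⟩
        apply inv_anti₀ (by positivity)
        apply pow_le_pow_left₀ h2.le
        apply Real.log_le_log
        · have : (1 : ℝ) ≤ n := by exact_mod_cast (by omega : 1 ≤ n)
          linarith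
        · push_cast; linarith) ⌊X⌋₊ hYX le_rfl
    have hsum2 : ∑ n ∈ Ioc Y ⌊X⌋₊, b n * ((Real.log n ^ (m + 1) : ℝ) : ℂ) *
        (((Real.log n ^ (m + 1))⁻¹ : ℝ) : ℂ) = ∑ n ∈ Ioc Y ⌊X⌋₊, b n := by
      refine sum_congr rfl fun n hn => ?_
      rw [mem_Ioc] at hn
      have h1 := hlogn n hn.1
      have h2 : 0 < Real.log n := lt_of_lt_of_le (by positivity) h1
      rw [mul_assoc, ← Complex.ofReal_mul, mul_inv_cancel₀ (by positivity), Complex.ofReal_one,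
        mul_one]
    rw [hsum2] at hab
    -- the weight at Y + 1
    have hw : (Real.log ((Y + 1 : ℕ) : ℝ) ^ (m + 1))⁻¹ ≤ 2 ^ (m + 1) / r ^ (2 * (m + 1)) := by
      have h1 := hlogn (Y + 1) (by omega)
      have h2 : (r ^ 2 / 2) ^ (m + 1) ≤ Real.log ((Y + 1 : ℕ) : ℝ) ^ (m + 1) :=
        pow_le_pow_left₀ (by positivity) h1 _
      have h3 := inv_anti₀ (by positivity) h2
      refine h3.trans (le_of_eq ?_)
      rw [div_pow, inv_div, ← pow_mul]
    have hlarge : ‖∑ n ∈ Ioc Y ⌊X⌋₊, b n‖ * r ^ m ≤ 2 ^ (m + 1 + 1) * C4 * κ * X := by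
      have h1 : ‖∑ n ∈ Ioc Y ⌊X⌋₊, b n‖ ≤ 2 * M * (2 ^ (m + 1) / r ^ (2 * (m + 1))) :=
        hab.trans (mul_le_mul_of_nonneg_left hw (by positivity))
      calc _ ≤ 2 * M * (2 ^ (m + 1) / r ^ (2 * (m + 1))) * r ^ m :=
            mul_le_mul_of_nonneg_right h1 (by positivity)
        _ = 2 ^ (m + 1 + 1) * C4 * κ * X := by
            rw [hM]
            have e : r ^ (2 * (m + 1)) = r ^ (m + 1 + 1) * r ^ m := by
              rw [← pow_add]; congr 1; ring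
            rw [e]
            field_simp
            ring
    have hsmall : ‖∑ n ∈ Icc 1 Y, b n‖ * r ^ m ≤ (m + 2).factorial * κ * X := by
      have h1 := triv b hb Y X (hYle.trans (by
        calc Real.sqrt X = Real.sqrt X * 1 := (mul_one _).symm
          _ ≤ Real.sqrt X * Real.sqrt X := mul_le_mul_of_nonneg_left hsq1 (Real.sqrt_nonneg _)
          _ = X := Real.mul_self_sqrt hX0.le))
      rw [← hr] at h1
      calc ‖∑ n ∈ Icc 1 Y, b n‖ * r ^ m ≤ (Y * r ^ 2) * r ^ m :=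
            mul_le_mul_of_nonneg_right h1 (by positivity)
        _ ≤ (Real.sqrt X * r ^ 2) * r ^ m := by gcongr
        _ = Real.sqrt X * r ^ (m + 2) := by ring
        _ ≤ Real.sqrt X * ((m + 2).factorial * Real.sqrt X) :=
            mul_le_mul_of_nonneg_left hgrow2 (Real.sqrt_nonneg _)
        _ = (m + 2).factorial * 1 * (Real.sqrt X * Real.sqrt X) := by ring
        _ = (m + 2).factorial * 1 * X := by rw [Real.mul_self_sqrt hX0.le]
        _ ≤ (m + 2).factorial * κ * X := by gcongr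
    have hsplit : ∑ n ∈ Icc 1 ⌊X⌋₊, b n = ∑ n ∈ Icc 1 Y, b n + ∑ n ∈ Ioc Y ⌊X⌋₊, b n := by
      obtain ⟨j, hj⟩ : ∃ j, ⌊X⌋₊ = Y + j := ⟨⌊X⌋₊ - Y, by omega⟩
      rw [hj, Icc_split, sum_union (disj Y j)]
    rw [hsplit]
    calc ‖∑ n ∈ Icc 1 Y, b n + ∑ n ∈ Ioc Y ⌊X⌋₊, b n‖ * r ^ m
        ≤ (‖∑ n ∈ Icc 1 Y, b n‖ + ‖∑ n ∈ Ioc Y ⌊X⌋₊, b n‖) * r ^ m :=
          mul_le_mul_of_nonneg_right (norm_add_le _ _) (by positivity)
      _ = ‖∑ n ∈ Icc 1 Y, b n‖ * r ^ m + ‖∑ n ∈ Ioc Y ⌊X⌋₊, b n‖ * r ^ m := by ring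
      _ ≤ (m + 2).factorial * κ * X + 2 ^ (m + 1 + 1) * C4 * κ * X := add_le_add hsmall hlarge
      _ = _ := by ring
  · -- the trivial case
    have h1 := triv b hb ⌊X⌋₊ X hN
    rw [← hr] at h1
    have h2 : (1 : ℝ) ≤ (m + 1 + 1).factorial + 2 ^ (m + 1 + 1) * C4 := by
      have : 0 ≤ 2 ^ (m + 1 + 1) * C4 := by positivity
      linarith
    calc ‖∑ n ∈ Icc 1 ⌊X⌋₊, b n‖ * r ^ m ≤ (⌊X⌋₊ * r ^ 2) * r ^ m :=
          mul_le_mul_of_nonneg_right h1 (by positivity)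
      _ ≤ (X * r ^ 2) * r ^ m := by gcongr
      _ = r ^ (m + 1 + 1) * X := by ring
      _ ≤ κ * X := mul_le_mul_of_nonneg_right hcase.le hX0.le
      _ = 1 * κ * X := by ring
      _ ≤ _ := by gcongr

end Pool.Agent.Lib.MP_6bc78b_nt.SW.H76
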